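import Pool.Agent.Q264.PC.One

open scoped Classical TensorProduct

set_option linter.unusedSectionVars false
set_option linter.unusedVariables false

namespace Q264.PC

section fld

variable {k : Type} [Field k] [CharZero k] {F : Type} [Field F] [Algebra k F] [FiniteDimensional k F]
  {W : Type} [AddCommGroup W] [Module F W] [Module k W] [IsScalarTower k F W]
  {U : Type} [AddCommGroup U] [Module F U] [Module k U] [IsScalarTower k F U]
  {K : Type} [Field K] [Algebra k K]
  {Ω : Type} [Field Ω] [Algebra k Ω] [Algebra K Ω] [IsScalarTower k K Ω] [IsAlgClosed Ω]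

/-- base change to the algebraically closed field -/
noncomputable def toΩ (Ω : Type) [Field Ω] [Algebra k Ω] [Algebra K Ω] [IsScalarTower k K Ω] :
    K ⊗[k] U →ₗ[k] Ω ⊗[k] U :=
  LinearMap.rTensor U (IsScalarTower.toAlgHom k K Ω).toLinearMap

lemma toΩ_tmul (c : K) (u : U) : toΩ Ω (c ⊗ₜ[k] u) = (algebraMap K Ω c) ⊗ₜ[k] u := rfl

/-- extension of an embedding -/
noncomputable def tauK (τ : F →ₐ[k] Ω) : K ⊗[k] F →ₐ[k] Ω :=
  Algebra.TensorProduct.productMap (IsScalarTower.toAlgHom k K Ω) τ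

lemma tauK_tmul (τ : F →ₐ[k] Ω) (c : K) (f : F) :
    tauK τ (c ⊗ₜ[k] f) = algebraMap K Ω c * τ f := by
  simp [tauK]

lemma eq_zero_of_tauK (θ : K ⊗[k] F) (h : ∀ τ : F →ₐ[k] Ω, tauK τ θ = 0) : θ = 0 := by
  set n := Module.finrank k F with hn
  let b : Module.Basis (Fin n) k F := Module.finBasis k F
  have hcard : Fintype.card (Fin n) = Fintype.card (F →ₐ[k] Ω) := by
    rw [Fintype.card_fin, AlgHom.card]
  let e : Fin n ≃ (F →ₐ[k] Ω) := Fintype.equivOfCardEq hcard
  have hdisc := Algebra.discr_not_zero_of_basis k b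
  have hdet : (Algebra.embeddingsMatrixReindex k Ω b e).det ≠ 0 := by
    intro h0
    have h1 := Algebra.discr_eq_det_embeddingsMatrixReindex_pow_two k Ω b e
    rw [h0, zero_pow two_ne_zero, map_eq_zero] at h1
    exact hdisc h1
  -- coordinates of θ
  let c : Fin n → K := fun i => (b.baseChange K).repr θ i
  have hθ : θ = ∑ i, c i ⊗ₜ[k] b i := by
    conv_lhs => rw [← (b.baseChange K).sum_repr θ]
    apply Finset.sum_congr rfl
    intro j _
    rw [Module.Basis.baseChange_apply, TensorProduct.smul_tmul', smul_eq_mul, mul_one]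
  have hv : (fun i => algebraMap K Ω (c i)) = (0 : Fin n → Ω) := by
    apply Matrix.eq_zero_of_vecMul_eq_zero hdet
    ext j
    have h2 := h (e j)
    rw [hθ, map_sum] at h2
    simp only [tauK_tmul] at h2
    simp only [Matrix.vecMul, dotProduct, Pi.zero_apply]
    rw [← h2]
    rfl
  rw [hθ]
  apply Finset.sum_eq_zero
  intro i _
  have h3 := congrFun hv i
  simp only [Pi.zero_apply, map_eq_zero] at h3
  rw [h3, TensorProduct.zero_tmul]

/-- relations defining the `τ`-component -/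
def relSet (U : Type) [AddCommGroup U] [Module F U] [Module k U] (τ : F →ₐ[k] Ω) :
    Set (Ω ⊗[k] U) :=
  {v | ∃ (f : F) (u : U), v = (τ f) ⊗ₜ[k] u - (1 : Ω) ⊗ₜ[k] (f • u)}

lemma act_mod (τ : F →ₐ[k] Ω) (y : K ⊗[k] U) (θ : K ⊗[k] F) :
    toΩ Ω (actOn y θ) - tauK τ θ • toΩ Ω y ∈ Submodule.span Ω (relSet U τ) := by
  induction θ using TensorProduct.induction_on with
  | zero => simp
  | add a b ha hb =>
    have : toΩ Ω (actOn y (a + b)) - tauK τ (a + b) • toΩ Ω y =
        (toΩ Ω (actOn y a) - tauK τ a • toΩ Ω y) + (toΩ Ω (actOn y b) - tauK τ b • toΩ Ω y) := by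
      rw [map_add, map_add, map_add, add_smul]; abel
    rw [this]
    exact Submodule.add_mem _ ha hb
  | tmul c f =>
    rw [actOn_tmul, tauK_tmul]
    induction y using TensorProduct.induction_on with
    | zero => simp
    | add a b ha hb =>
      have : toΩ Ω (c • (LinearMap.lTensor K (mulU k f)) (a + b)) -
          (algebraMap K Ω c * τ f) • toΩ Ω (a + b) =
          (toΩ Ω (c • (LinearMap.lTensor K (mulU k f)) a) - (algebraMap K Ω c * τ f) • toΩ Ω a) +
          (toΩ Ω (c • (LinearMap.lTensor K (mulU k f)) b) - (algebraMap K Ω c * τ f) • toΩ Ω b) := by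
        rw [map_add, smul_add, map_add, map_add, smul_add]; abel
      rw [this]
      exact Submodule.add_mem _ ha hb
    | tmul c' u =>
      rw [LinearMap.lTensor_tmul, TensorProduct.smul_tmul', toΩ_tmul, toΩ_tmul]
      have : (algebraMap K Ω (c • c')) ⊗ₜ[k] (mulU k f) u -
          (algebraMap K Ω c * τ f) • (algebraMap K Ω c') ⊗ₜ[k] u =
          (-(algebraMap K Ω (c * c'))) • ((τ f) ⊗ₜ[k] u - (1 : Ω) ⊗ₜ[k] (f • u)) := by
        rw [smul_sub, TensorProduct.smul_tmul', TensorProduct.smul_tmul', TensorProduct.smul_tmul']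
        simp only [smul_eq_mul, map_mul, mul_one, TensorProduct.neg_tmul, neg_mul]
        have h1 : algebraMap K Ω c * τ f * algebraMap K Ω c' =
          algebraMap K Ω c * algebraMap K Ω c' * τ f := by ring
        rw [h1]
        have h2 : (mulU k f) u = f • u := rfl
        rw [h2]
        abel
      rw [this]
      exact Submodule.smul_mem _ _ (Submodule.subset_span ⟨f, u, rfl⟩)

lemma span_ne_top {s : ℕ} (hs : 0 < s) (e : Module.Basis (Fin s) F U) (τ : F →ₐ[k] Ω) :
    Submodule.span Ω (relSet U τ) ≠ ⊤ := by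
  intro htop
  let i0 : Fin s := ⟨0, hs⟩
  let φ : U →ₗ[k] Ω := τ.toLinearMap ∘ₗ ((e.coord i0).restrictScalars k)
  let ℓ : Ω ⊗[k] U →ₗ[Ω] Ω := TensorProduct.AlgebraTensorModule.lift
    ((LinearMap.toSpanSingleton Ω (U →ₗ[k] Ω) φ))
  have hℓ : ∀ (c : Ω) (u : U), ℓ (c ⊗ₜ[k] u) = c * τ (e.coord i0 u) := by
    intro c u; rfl
  have h1 : Submodule.span Ω (relSet U τ) ≤ LinearMap.ker ℓ := by
    rw [Submodule.span_le]
    rintro _ ⟨f, u, rfl⟩
    rw [SetLike.mem_coe, LinearMap.mem_ker, map_sub, hℓ, hℓ, map_smul, smul_eq_mul, map_mul]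
    ring
  rw [htop, top_le_iff, LinearMap.ker_eq_top] at h1
  have h2 := hℓ 1 (e i0)
  rw [h1] at h2
  simp at h2

/-- vectors with algebraic coordinates -/
def IsAlgVec (k : Type) [Field k] {Ω : Type} [Field Ω] [Algebra k Ω] {U : Type} [AddCommGroup U]
    [Module k U] (v : Ω ⊗[k] U) : Prop :=
  v ∈ Submodule.span (algebraicClosure k Ω) (Set.range fun u : U => (1 : Ω) ⊗ₜ[k] u)

lemma relSet_alg (τ : F →ₐ[k] Ω) : ∀ v ∈ relSet U τ, IsAlgVec k v := by
  rintro _ ⟨f, u, rfl⟩
  have hf : τ f ∈ algebraicClosure k Ω := by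
    rw [mem_algebraicClosure_iff]
    have h0 : IsAlgebraic k f := Algebra.IsAlgebraic.isAlgebraic f
    exact h0.algHom τ
  unfold IsAlgVec
  apply Submodule.sub_mem
  · have : (τ f) ⊗ₜ[k] u = (⟨τ f, hf⟩ : algebraicClosure k Ω) • ((1 : Ω) ⊗ₜ[k] u) := by
      change _ = (τ f) • ((1 : Ω) ⊗ₜ[k] u)
      rw [TensorProduct.smul_tmul', smul_eq_mul, mul_one]
    rw [this]
    exact Submodule.smul_mem _ _ (Submodule.subset_span ⟨u, rfl⟩)
  · exact Submodule.subset_span ⟨f • u, rfl⟩

/-- (C2): commutative endomorphism field -/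
theorem indep_field {s : ℕ} (hs : 0 < s) (e : Module.Basis (Fin s) F U)
    (lam : W →ₗ[k] K ⊗[k] U) (h : IsLog F lam) (w : W)
    (hw : ∀ S : Set (Ω ⊗[k] U), (∀ v ∈ S, IsAlgVec k v) → Submodule.span Ω S ≠ ⊤ →
      toΩ Ω (lam w) ∉ Submodule.span Ω S) {m : ℕ} (d : Fin m → F)
    (hd : LinearIndependent k d) : LinearIndependent K (fun j => lam (d j • w)) := by
  rw [Fintype.linearIndependent_iff]
  intro g hg
  rw [dep_act lam h w] at hg
  apply sum_tmul_ne d hd g
  apply eq_zero_of_tauK (Ω := Ω)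
  intro τ
  by_contra hne
  apply hw (relSet U τ) (relSet_alg τ) (span_ne_top hs e τ)
  have h1 := act_mod τ (lam w) (∑ j, g j ⊗ₜ[k] d j)
  rw [hg, map_zero, zero_sub, Submodule.neg_mem_iff] at h1
  have h2 := Submodule.smul_mem _ (tauK τ (∑ j, g j ⊗ₜ[k] d j))⁻¹ h1
  rwa [smul_smul, inv_mul_cancel₀ hne, one_smul] at h2

end fld

end Q264.PC
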