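import Mathlib

open scoped Classical TensorProduct

set_option linter.unusedSectionVars false
set_option linter.unusedVariables false

namespace Q264.PC

section perturb

variable {k : Type*} [Field k] {U : Type*} [AddCommGroup U] [Module k U]

lemma exists_proj {m : ℕ} (u : Fin m → U) (hu : LinearIndependent k u) :
    ∃ π : U →ₗ[k] (Fin m → k), ∀ j, π (u j) = Pi.single j 1 := by
  have h1 : LinearMap.ker (Fintype.linearCombination k u) = ⊥ :=
    LinearMap.ker_eq_bot.mpr (linearIndependent_iff_injective_fintypeLinearCombination.mp hu)
  obtain ⟨g, hg⟩ := LinearMap.exists_leftInverse_of_injective _ h1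
  refine ⟨g, fun j => ?_⟩
  have h2 : Fintype.linearCombination k u (Pi.single j 1) = u j := by
    rw [Fintype.linearCombination_apply]
    rw [Finset.sum_eq_single j]
    · simp
    · intro b _ hb; simp [Pi.single_eq_of_ne hb]
    · intro h; exact absurd (Finset.mem_univ _) h
  rw [← h2]
  exact LinearMap.congr_fun hg (Pi.single j 1)

lemma indep_of_det {m : ℕ} (f : Fin m → U) (π : U →ₗ[k] (Fin m → k))
    (h : (Matrix.of fun i j => π (f j) i).det ≠ 0) : LinearIndependent k f := by
  rw [Fintype.linearIndependent_iff]
  intro g hg
  have h1 : (Matrix.of fun i j => π (f j) i).mulVec g = 0 := by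
    ext i
    have h2 := congrFun (congrArg π hg) i
    rw [map_sum] at h2
    simp only [map_smul, Finset.sum_apply, Pi.smul_apply, smul_eq_mul, map_zero,
      Pi.zero_apply] at h2
    simp only [Matrix.mulVec, dotProduct, Matrix.of_apply, Pi.zero_apply]
    rw [← h2]
    exact Finset.sum_congr rfl fun j _ => mul_comm _ _
  have h3 := Matrix.eq_zero_of_mulVec_eq_zero h h1
  intro i
  exact congrFun h3 i

lemma perturb [Infinite k] {m : ℕ} (u v : Fin m → U) (hu : LinearIndependent k u) :
    ∃ ε : k, ε ≠ 0 ∧ LinearIndependent k (fun j => u j + ε • v j) := by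
  obtain ⟨π, hπ⟩ := exists_proj u hu
  set C : Matrix (Fin m) (Fin m) k := Matrix.of fun i j => π (v j) i with hC
  set q : Polynomial k := (1 + (Polynomial.X : Polynomial k) • C.map Polynomial.C).det with hq
  have heval : ∀ t : k, q.eval t = (1 + t • C).det := by
    intro t
    rw [hq, ← Polynomial.coe_evalRingHom, RingHom.map_det]
    congr 1
    ext i j
    by_cases hij : i = j
    · subst hij; simp; exact mul_comm _ _
    · simp [hij]; exact mul_comm _ _
  have hq0 : q ≠ 0 := by
    intro h0
    have := heval 0
    rw [h0] at this
    simp at this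
  obtain ⟨ε, hε⟩ := Infinite.exists_notMem_finset (q.roots.toFinset ∪ {0})
  rw [Finset.mem_union, not_or, Multiset.mem_toFinset, Finset.mem_singleton] at hε
  refine ⟨ε, hε.2, ?_⟩
  apply indep_of_det _ π
  have h1 : (Matrix.of fun i j => π (u j + ε • v j) i) = 1 + ε • C := by
    ext i j
    simp only [Matrix.of_apply, map_add, map_smul, hπ, Pi.add_apply, Pi.smul_apply,
      Matrix.add_apply, Matrix.smul_apply, hC, Matrix.one_apply, smul_eq_mul]
    congr 1
    rw [Pi.single_apply]
  rw [h1, ← heval]
  intro h2
  exact hε.1 ((Polynomial.mem_roots hq0).mpr h2)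

end perturb

section structural

variable {k : Type*} [Field k] [Infinite k] {D : Type*} [DivisionRing D] [Algebra k D]
  {W : Type*} [AddCommGroup W] [Module D W] [Module k W] [IsScalarTower k D W]
  {U : Type*} [AddCommGroup U] [Module D U] [Module k U] [IsScalarTower k D U]
  [Module.Finite k U]

/-- a `D`-linear map with prescribed value at a nonzero vector -/
lemma exists_map {a : W} (ha : a ≠ 0) (y : U) : ∃ f : W →ₗ[D] U, f a = y := by
  have h1 : LinearMap.ker (LinearMap.toSpanSingleton D W a) = ⊥ := by
    rw [LinearMap.ker_eq_bot]
    intro x y h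
    simp only [LinearMap.toSpanSingleton_apply] at h
    by_contra hne
    have h2 : (x - y) • a = 0 := by rw [sub_smul, h, sub_self]
    rcases smul_eq_zero.mp h2 with h3 | h3
    · exact hne (sub_eq_zero.mp h3)
    · exact ha h3
  obtain ⟨g, hg⟩ := LinearMap.exists_leftInverse_of_injective _ h1
  have h2 : g a = 1 := by
    have := LinearMap.congr_fun hg 1
    simpa using this
  refine ⟨(LinearMap.toSpanSingleton D U y).comp g, ?_⟩
  simp [h2]

/-- **structural rank**: the generic `D`-linear map is injective on every `k`-subspace of
dimension at most `dim U`. -/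
theorem exists_injective : ∀ (m : ℕ) (a : Fin m → W), LinearIndependent k a →
    m ≤ Module.finrank k U → ∃ x : W →ₗ[D] U, LinearIndependent k (fun j => x (a j)) := by
  have hcomm : SMulCommClass D k U := IsScalarTower.to_smulCommClass'
  have hcomm' : SMulCommClass k D U := IsScalarTower.to_smulCommClass
  intro m
  induction m with
  | zero =>
    intro a _ _
    exact ⟨0, linearIndependent_empty_type⟩
  | succ m ih =>
    intro a ha hm
    obtain ⟨ha1, ha2⟩ := linearIndependent_finSucc'.mp ha
    obtain ⟨x', hx'⟩ := ih (Fin.init a) ha1 (by omega)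
    by_cases hlast : x' (a (Fin.last m)) ∈ Submodule.span k (Set.range fun j => x' (Fin.init a j))
    · -- perturb
      obtain ⟨c, hc⟩ := (Submodule.mem_span_range_iff_exists_fun k).mp hlast
      set a' : W := a (Fin.last m) - ∑ i, c i • Fin.init a i with ha'
      have ha'0 : a' ≠ 0 := by
        intro h0
        apply ha2
        rw [Submodule.mem_span_range_iff_exists_fun]
        exact ⟨c, (sub_eq_zero.mp h0).symm⟩
      have hksmul : ∀ (f : W →ₗ[D] U) (r : k) (w : W), f (r • w) = r • f w := by
        intro f r w
        rw [← algebraMap_smul D r w, map_smul, algebraMap_smul]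
      have hx'a' : x' a' = 0 := by
        rw [ha', map_sub, map_sum, sub_eq_zero, ← hc]
        exact Finset.sum_congr rfl fun i _ => (hksmul x' _ _).symm
      have hdim : Submodule.span k (Set.range fun j => x' (Fin.init a j)) ≠ ⊤ := by
        intro htop
        have h1 := finrank_range_le_card (R := k) (fun j : Fin m => x' (Fin.init a j))
        rw [Set.finrank, htop, finrank_top, Fintype.card_fin] at h1
        omega
      obtain ⟨y0, hy0⟩ : ∃ y0 : U, y0 ∉ Submodule.span k (Set.range fun j => x' (Fin.init a j)) := by
        by_contra hcon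
        push Not at hcon
        exact hdim (Submodule.eq_top_iff'.mpr hcon)
      obtain ⟨y, hy⟩ := exists_map (D := D) ha'0 y0
      have hind : LinearIndependent k (Fin.snoc (fun j => x' (Fin.init a j)) y0 : Fin (m + 1) → U) := by
        rw [linearIndependent_finSucc']
        constructor
        · simpa using hx'
        · simpa using hy0
      obtain ⟨ε, hε0, hε⟩ := perturb _ (Fin.snoc (fun j => y (Fin.init a j)) 0 : Fin (m + 1) → U) hind
      have hε' : LinearIndependent k (fun j : Fin m => x' (Fin.init a j) + ε • y (Fin.init a j)) ∧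
          y0 ∉ Submodule.span k (Set.range fun j : Fin m =>
            x' (Fin.init a j) + ε • y (Fin.init a j)) := by
        have := linearIndependent_finSucc'.mp hε
        have h1 : (Fin.init fun j : Fin (m + 1) =>
            (Fin.snoc (fun j => x' (Fin.init a j)) y0 : Fin (m + 1) → U) j +
            ε • (Fin.snoc (fun j => y (Fin.init a j)) 0 : Fin (m + 1) → U) j) =
            fun j : Fin m => x' (Fin.init a j) + ε • y (Fin.init a j) := by
          ext j
          simp only [Fin.init, Fin.snoc_castSucc]
        rw [h1] at this
        refine ⟨this.1, ?_⟩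
        have h2 := this.2
        simpa only [Fin.snoc_last, smul_zero, add_zero] using h2
      refine ⟨x' + ε • y, ?_⟩
      rw [linearIndependent_finSucc']
      have hinit : (Fin.init fun j : Fin (m + 1) => (x' + ε • y) (a j)) =
          fun j : Fin m => x' (Fin.init a j) + ε • y (Fin.init a j) := by
        ext j; simp [Fin.init]
      rw [hinit]
      refine ⟨hε'.1, fun hmem => hε'.2 ?_⟩
      have hval : (x' + ε • y) (a (Fin.last m)) =
          ε • y0 + ∑ i, c i • (x' (Fin.init a i) + ε • y (Fin.init a i)) := by
        have h1 : a (Fin.last m) = a' + ∑ i, c i • Fin.init a i := by rw [ha']; abel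
        rw [h1, map_add, map_sum]
        congr 1
        · simp [hx'a', hy]
        · apply Finset.sum_congr rfl
          intro i _
          rw [hksmul]; simp
      rw [hval] at hmem
      have hsum : ∑ i, c i • (x' (Fin.init a i) + ε • y (Fin.init a i)) ∈
          Submodule.span k (Set.range fun j : Fin m =>
            x' (Fin.init a j) + ε • y (Fin.init a j)) :=
        Submodule.sum_mem _ fun i _ => Submodule.smul_mem _ _ (Submodule.subset_span ⟨i, rfl⟩)
      have h3 := (Submodule.add_mem_iff_left _ hsum).mp hmem
      have h4 := Submodule.smul_mem _ ε⁻¹ h3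
      rwa [smul_smul, inv_mul_cancel₀ hε0, one_smul] at h4
    · refine ⟨x', ?_⟩
      rw [linearIndependent_finSucc']
      exact ⟨hx', hlast⟩

end structural

end Q264.PC
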