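import Pool.Agent.Q264.PC.Pad

open scoped Classical TensorProduct

set_option linter.unusedSectionVars false
set_option linter.unusedVariables false

namespace Q264.PC

section one

variable {k : Type*} [Field k] {D : Type*} [DivisionRing D] [Algebra k D]
  {W : Type*} [AddCommGroup W] [Module D W] [Module k W] [IsScalarTower k D W]
  {U : Type*} [AddCommGroup U] [Module D U] [Module k U] [IsScalarTower k D U]
  {K : Type*} [Field K] [Algebra k K]

/-- `mulU` as a linear map in `d` -/
def mulL (k : Type*) [Field k] {D : Type*} [DivisionRing D] [Algebra k D]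
    {U : Type*} [AddCommGroup U] [Module D U] [Module k U] [IsScalarTower k D U] :
    D →ₗ[k] U →ₗ[k] U where
  toFun d := mulU k d
  map_add' := by intro d e; ext u; exact add_smul d e u
  map_smul' := by intro r d; ext u; exact smul_assoc r d u

/-- the action of `K ⊗ D` on a fixed vector of `K ⊗ U` -/
noncomputable def actOn (y : K ⊗[k] U) : K ⊗[k] D →ₗ[k] K ⊗[k] U :=
  TensorProduct.lift
    (LinearMap.mk₂ k (fun (c : K) (d : D) => c • (LinearMap.lTensor K (mulU k d)) y)
      (fun c c' d => add_smul c c' _) (fun r c d => smul_assoc r c _)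
      (fun c d d' => by
        have : mulU k (U := U) (d + d') = mulU k d + mulU k d' := (mulL k (U := U)).map_add d d'
        rw [this, LinearMap.lTensor_add, LinearMap.add_apply, smul_add])
      (fun r c d => by
        have : mulU k (U := U) (r • d) = r • mulU k d := (mulL k (U := U)).map_smul r d
        rw [this, LinearMap.lTensor_smul, LinearMap.smul_apply, smul_comm]))

lemma actOn_tmul (y : K ⊗[k] U) (c : K) (d : D) :
    actOn y (c ⊗ₜ[k] d) = c • (LinearMap.lTensor K (mulU k d)) y := rfl

/-- key relation: a linear dependence between the images of `d_j w` gives an annihilator -/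
lemma dep_act (lam : W →ₗ[k] K ⊗[k] U) (h : IsLog D lam) (w : W) {m : ℕ} (d : Fin m → D)
    (g : Fin m → K) : ∑ j, g j • lam (d j • w) = actOn (lam w) (∑ j, g j ⊗ₜ[k] d j) := by
  rw [map_sum]
  apply Finset.sum_congr rfl
  intro j _
  rw [actOn_tmul, h]

lemma sum_tmul_ne {m : ℕ} (d : Fin m → D) (hd : LinearIndependent k d) (g : Fin m → K)
    (hg : ∑ j, g j ⊗ₜ[k] d j = 0) : ∀ j, g j = 0 := by
  obtain ⟨π, hπ⟩ := exists_proj d hd
  intro i
  have h1 := congrArg (TensorProduct.AlgebraTensorModule.rid k K K)
    (congrArg (LinearMap.lTensor K ((LinearMap.proj i : (Fin m → k) →ₗ[k] k) ∘ₗ π)) hg)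
  rw [map_sum, map_zero, map_sum] at h1
  simp only [LinearMap.lTensor_tmul, LinearMap.comp_apply, hπ, LinearMap.proj_apply,
    TensorProduct.AlgebraTensorModule.rid_tmul, map_zero] at h1
  rw [Finset.sum_eq_single i] at h1
  · simpa using h1
  · intro b _ hb; simp [Pi.single_eq_of_ne hb.symm]
  · intro h; exact absurd (Finset.mem_univ _) h

/-- relation of the action with `D`-linear maps `U → D` -/
lemma act_mul (φ : U →ₗ[D] D) (y : K ⊗[k] U) (θ : K ⊗[k] D) :
    (LinearMap.lTensor K (φ.restrictScalars k)) (actOn y θ) =
      θ * (LinearMap.lTensor K (φ.restrictScalars k)) y := by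
  induction θ using TensorProduct.induction_on with
  | zero => simp
  | add a b ha hb => rw [map_add, map_add, ha, hb, add_mul]
  | tmul c d =>
    rw [actOn_tmul]
    induction y using TensorProduct.induction_on with
    | zero => simp
    | add a b ha hb => 
      rw [map_add, smul_add, map_add, map_add, mul_add, ha, hb]
    | tmul c' u =>
      rw [LinearMap.lTensor_tmul, LinearMap.lTensor_tmul, TensorProduct.smul_tmul',
        LinearMap.lTensor_tmul, Algebra.TensorProduct.tmul_mul_tmul]
      congr 1
      exact φ.map_smul d u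

lemma eq_zero_of_coords {s : ℕ} (e : Module.Basis (Fin s) D U) (y : K ⊗[k] U)
    (h : ∀ i, (LinearMap.lTensor K ((e.coord i).restrictScalars k)) y = 0) : y = 0 := by
  have h1 : y = ∑ i, (LinearMap.lTensor K
      (((LinearMap.toSpanSingleton D U (e i)).restrictScalars k) ∘ₗ
        ((e.coord i).restrictScalars k))) y := by
    have h2 : (∑ i, (((LinearMap.toSpanSingleton D U (e i)).restrictScalars k) ∘ₗ
        ((e.coord i).restrictScalars k))) = (LinearMap.id : U →ₗ[k] U) := by
      ext u
      rw [LinearMap.sum_apply]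
      simp only [LinearMap.comp_apply, LinearMap.restrictScalars_apply,
        LinearMap.toSpanSingleton_apply, LinearMap.id_apply, Module.Basis.coord_apply]
      exact e.sum_repr u
    have h3 : ∑ i, (LinearMap.lTensor K
      (((LinearMap.toSpanSingleton D U (e i)).restrictScalars k) ∘ₗ
        ((e.coord i).restrictScalars k))) y = (LinearMap.lTensor K (∑ i, (((LinearMap.toSpanSingleton D U (e i)).restrictScalars k) ∘ₗ
        ((e.coord i).restrictScalars k)))) y := by
      have := map_sum (LinearMap.lTensorHom K : (U →ₗ[k] U) →ₗ[k] _)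
        (fun i => (((LinearMap.toSpanSingleton D U (e i)).restrictScalars k) ∘ₗ
        ((e.coord i).restrictScalars k))) Finset.univ
      simp only [LinearMap.coe_lTensorHom] at this
      rw [this, LinearMap.sum_apply]
    rw [h3, h2]; simp
  rw [h1]
  apply Finset.sum_eq_zero
  intro i _
  rw [LinearMap.lTensor_comp, LinearMap.comp_apply, h i, map_zero]

/-- (C1): no zero divisors in `K ⊗ D` -/
theorem indep_domain {s : ℕ} (e : Module.Basis (Fin s) D U)
    (hdom : ∀ a b : K ⊗[k] D, a * b = 0 → a = 0 ∨ b = 0)
    (lam : W →ₗ[k] K ⊗[k] U) (h : IsLog D lam) (w : W) (hw : lam w ≠ 0) {m : ℕ} (d : Fin m → D)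
    (hd : LinearIndependent k d) : LinearIndependent K (fun j => lam (d j • w)) := by
  rw [Fintype.linearIndependent_iff]
  intro g hg
  rw [dep_act lam h w] at hg
  apply sum_tmul_ne d hd g
  by_contra hne
  apply hw
  apply eq_zero_of_coords e
  intro i
  have h1 := act_mul (e.coord i) (lam w) (∑ j, g j ⊗ₜ[k] d j)
  rw [hg, map_zero] at h1
  rcases hdom _ _ h1.symm with h2 | h2
  · exact absurd h2 hne
  · exact h2

end one

end Q264.PC
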