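import Pool.Agent.Q264.PC.Gen

open scoped Classical TensorProduct

set_option linter.unusedSectionVars false
set_option linter.unusedVariables false

namespace Q264.PC

section logs

variable {k : Type*} [Field k] {D : Type*} [DivisionRing D] [Algebra k D]
  {W : Type*} [AddCommGroup W] [Module D W] [Module k W] [IsScalarTower k D W]
  {U : Type*} [AddCommGroup U] [Module D U] [Module k U] [IsScalarTower k D U]
  {K : Type*} [Field K] [Algebra k K]

/-- multiplication by `d` on `U` as a `k`-linear map -/
def mulU (k : Type*) [Field k] {D : Type*} [DivisionRing D] [Algebra k D]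
    {U : Type*} [AddCommGroup U] [Module D U] [Module k U] [IsScalarTower k D U] (d : D) :
    U →ₗ[k] U where
  toFun u := d • u
  map_add' := smul_add d
  map_smul' := by
    intro r u
    have : SMulCommClass D k U := IsScalarTower.to_smulCommClass'
    exact smul_comm d r u

/-- compatibility of a linear map `W → K ⊗ U` with the action of `D` -/
def IsLog (D : Type*) [DivisionRing D] [Algebra k D] [Module D W] [IsScalarTower k D W]
    [Module D U] [IsScalarTower k D U] (lam : W →ₗ[k] K ⊗[k] U) : Prop :=
  ∀ (d : D) (w : W), lam (d • w) = (LinearMap.lTensor K (mulU k d)) (lam w)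

/-- the dimension of the `K`-span of the image of `L` -/
noncomputable def prank (lam : W →ₗ[k] K ⊗[k] U) (L : Submodule k W) : ℕ :=
  Module.finrank K (Submodule.span K (lam '' L))

/-- coordinates of `lam` -/
noncomputable def coord {r n : ℕ} (P : Module.Basis (Fin r) D W) (b : Module.Basis (Fin n) k U)
    (lam : W →ₗ[k] K ⊗[k] U) (ij : Fin r × Fin n) : K :=
  (b.baseChange K).repr (lam (P ij.1)) ij.2

lemma lam_P {r n : ℕ} (P : Module.Basis (Fin r) D W) (b : Module.Basis (Fin n) k U)
    (lam : W →ₗ[k] K ⊗[k] U) (i : Fin r) :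
    lam (P i) = ∑ j, coord P b lam (i, j) ⊗ₜ[k] b j := by
  conv_lhs => rw [← (b.baseChange K).sum_repr (lam (P i))]
  apply Finset.sum_congr rfl
  intro j _
  rw [Module.Basis.baseChange_apply, TensorProduct.smul_tmul', smul_eq_mul, mul_one]
  rfl

lemma lam_eq {r n : ℕ} (P : Module.Basis (Fin r) D W) (b : Module.Basis (Fin n) k U)
    (lam : W →ₗ[k] K ⊗[k] U) (h : IsLog D lam) (w : W) :
    lam w = ∑ i, ∑ j, coord P b lam (i, j) ⊗ₜ[k] ((P.repr w i) • b j) := by
  conv_lhs => rw [← P.sum_repr w]
  rw [map_sum]
  apply Finset.sum_congr rfl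
  intro i _
  rw [h, lam_P P b, map_sum]
  apply Finset.sum_congr rfl
  intro j _
  rw [LinearMap.lTensor_tmul]
  rfl

/-- base change of a linear map to `k^m` -/
noncomputable def piK (K : Type*) [Field K] [Algebra k K] {m : ℕ} (π : U →ₗ[k] (Fin m → k)) :
    K ⊗[k] U →ₗ[K] (Fin m → K) :=
  LinearMap.pi fun i => (TensorProduct.AlgebraTensorModule.rid k K K).toLinearMap ∘ₗ
    (LinearMap.baseChange K ((LinearMap.proj i : (Fin m → k) →ₗ[k] k) ∘ₗ π))

lemma piK_tmul {m : ℕ} (π : U →ₗ[k] (Fin m → k)) (c : K) (u : U) (i : Fin m) :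
    piK K π (c ⊗ₜ[k] u) i = c * algebraMap k K (π u i) := by
  simp [piK, Algebra.smul_def, mul_comm]

theorem poly_exists [Infinite k] [Module.Finite k U] {r n m : ℕ}
    (P : Module.Basis (Fin r) D W) (b : Module.Basis (Fin n) k U) (a : Fin m → W)
    (ha : LinearIndependent k a) (hm : m ≤ n) :
    ∃ F : MvPolynomial (Fin r × Fin n) k, F ≠ 0 ∧ F.IsHomogeneous m ∧
      ∀ (K : Type) [Field K] [Algebra k K] (lam : W →ₗ[k] K ⊗[k] U), IsLog D lam →
        MvPolynomial.aeval (coord P b lam) F ≠ 0 → LinearIndependent K (fun j => lam (a j)) := by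
  have hn : Module.finrank k U = n := by
    rw [Module.finrank_eq_card_basis b, Fintype.card_fin]
  have hcomm : SMulCommClass D k U := IsScalarTower.to_smulCommClass'
  obtain ⟨x0, hx0⟩ := exists_injective (D := D) (U := U) m a ha (by omega)
  obtain ⟨π, hπ⟩ := exists_proj _ hx0
  refine ⟨(Matrix.of fun (i' j' : Fin m) => ∑ ij : Fin r × Fin n,
    MvPolynomial.X ij * MvPolynomial.C (π ((P.repr (a j') ij.1) • b ij.2) i')).det, ?_, ?_, ?_⟩
  · intro h0
    have h1 := congrArg (MvPolynomial.eval fun ij : Fin r × Fin n => b.repr (x0 (P ij.1)) ij.2) h0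
    rw [map_zero, RingHom.map_det] at h1
    have h2 : ((MvPolynomial.eval fun ij : Fin r × Fin n =>
        b.repr (x0 (P ij.1)) ij.2).mapMatrix (Matrix.of fun (i' j' : Fin m) =>
        ∑ ij : Fin r × Fin n,
        MvPolynomial.X ij * MvPolynomial.C (π ((P.repr (a j') ij.1) • b ij.2) i'))) = 1 := by
      ext i' j'
      rw [RingHom.mapMatrix_apply, Matrix.map_apply, Matrix.of_apply, map_sum]
      simp only [map_mul, MvPolynomial.eval_X, MvPolynomial.eval_C]
      have h3 : x0 (a j') = ∑ ij : Fin r × Fin n,
          (b.repr (x0 (P ij.1)) ij.2) • ((P.repr (a j') ij.1) • b ij.2) := by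
        conv_lhs => rw [← P.sum_repr (a j')]
        rw [map_sum, Fintype.sum_prod_type]
        apply Finset.sum_congr rfl
        intro i _
        rw [map_smul]
        conv_lhs => rw [← b.sum_repr (x0 (P i))]
        rw [Finset.smul_sum]
        apply Finset.sum_congr rfl
        intro j _
        rw [smul_comm]
      have h4 := congrFun (congrArg π h3) i'
      rw [map_sum, Finset.sum_apply] at h4
      simp only [map_smul, Pi.smul_apply, smul_eq_mul] at h4
      rw [← h4, hπ, Pi.single_apply, Matrix.one_apply]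
    rw [h2, Matrix.det_one] at h1
    exact one_ne_zero h1
  · rw [Matrix.det_apply]
    apply MvPolynomial.IsHomogeneous.sum
    intro σ _
    have h5 : (∏ i', (Matrix.of fun (i' j' : Fin m) => ∑ ij : Fin r × Fin n,
        MvPolynomial.X ij * MvPolynomial.C (π ((P.repr (a j') ij.1) • b ij.2) i')) (σ i') i' :
        MvPolynomial (Fin r × Fin n) k).IsHomogeneous (∑ _i' : Fin m, 1) := by
      apply MvPolynomial.IsHomogeneous.prod
      intro i' _
      rw [Matrix.of_apply]
      apply MvPolynomial.IsHomogeneous.sum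
      intro ij _
      exact (MvPolynomial.isHomogeneous_X k ij).mul (MvPolynomial.isHomogeneous_C _ _)
    simp only [Finset.sum_const, Finset.card_univ, Fintype.card_fin, smul_eq_mul, mul_one] at h5
    rcases Int.units_eq_one_or (Equiv.Perm.sign σ) with h6 | h6
    · rw [h6, one_smul]; exact h5
    · rw [h6, Units.neg_smul, one_smul]; exact h5.neg
  · intro K _ _ lam hlam hne
    apply indep_of_det _ (piK K π)
    intro h0
    apply hne
    rw [← h0, AlgHom.map_det]
    congr 1
    ext i' j'
    rw [AlgHom.mapMatrix_apply, Matrix.map_apply, Matrix.of_apply, Matrix.of_apply, map_sum,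
      lam_eq P b lam hlam, map_sum, Finset.sum_apply, Fintype.sum_prod_type]
    apply Finset.sum_congr rfl
    intro i _
    rw [map_sum, Finset.sum_apply]
    apply Finset.sum_congr rfl
    intro j _
    rw [map_mul, MvPolynomial.aeval_X, MvPolynomial.aeval_C, piK_tmul]

lemma prank_eq {m : ℕ} (lam : W →ₗ[k] K ⊗[k] U) (L : Submodule k W) (a : Module.Basis (Fin m) k L)
    (h : LinearIndependent K (fun j => lam (a j))) : prank lam L = m := by
  have h1 : Submodule.span K (lam '' L) = Submodule.span K (Set.range fun j => lam (a j)) := by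
    apply le_antisymm
    · rw [Submodule.span_le]
      rintro _ ⟨x, hx, rfl⟩
      have h2 : (⟨x, hx⟩ : L) = ∑ j, (a.repr ⟨x, hx⟩ j) • a j := (a.sum_repr _).symm
      have h3 : x = ∑ j, (a.repr ⟨x, hx⟩ j) • (a j : W) := by
        have h5 := congrArg L.subtype h2
        rw [map_sum] at h5
        simp only [map_smul, Submodule.subtype_apply] at h5
        exact h5
      have h4 : lam x = ∑ j, (algebraMap k K (a.repr ⟨x, hx⟩ j)) • lam (a j) := by
        conv_lhs => rw [h3]
        rw [map_sum]
        apply Finset.sum_congr rfl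
        intro j _
        rw [map_smul, algebraMap_smul]
      rw [SetLike.mem_coe, h4]
      exact Submodule.sum_mem _ fun j _ => Submodule.smul_mem _ _ (Submodule.subset_span ⟨j, rfl⟩)
    · rw [Submodule.span_le]
      rintro _ ⟨j, rfl⟩
      exact Submodule.subset_span ⟨a j, (a j).2, rfl⟩
  unfold prank
  rw [h1, finrank_span_eq_card h, Fintype.card_fin]

end logs

end Q264.PC
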